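import Mathlib
import Pool.Agent.TeamU.TowerFinal
import Pool.Agent.TeamU.G9
import Pool.Agent.H118R2.Gap7

/-!
For every `r ≥ 1` and every `n ≥ n₀ r` there is a set of `n` points of the Euclidean plane in which
each of the `r` most frequent distances occurs at least `(n / r) ^ (1 + c)` times more often than
the `(r + 1)`-st most frequent one.
-/

open Finset

namespace Pool.Agent.Results.MP_1cd194_co.PolynomialGap

/-- `pairCount A d` is the number of unordered pairs `{x, y}` of distinct points of `A` with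
`|x - y| = d`. -/
noncomputable def pairCount (A : Finset (EuclideanSpace ℝ (Fin 2))) (d : ℝ) : ℕ :=
  Set.ncard {z : Sym2 (EuclideanSpace ℝ (Fin 2)) |
    ∃ x ∈ A, ∃ y ∈ A, x ≠ y ∧ dist x y = d ∧ z = s(x, y)}

/-- `freq A r` is the multiplicity `f(d_r)` of the `r`-th most frequent distance of `A`: the largest
`m ≥ 1` such that at least `r` distances `d > 0` occur at least `m` times, and `0` if `A` has fewer
than `r` distances. -/
noncomputable def freq (A : Finset (EuclideanSpace ℝ (Fin 2))) (r : ℕ) : ℕ :=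
  sSup {m : ℕ | 1 ≤ m ∧ r ≤ Set.ncard {d : ℝ | 0 < d ∧ m ≤ pairCount A d}}

/-- `M r n` is the maximum of `f(d_r) - f(d_{r+1})` over all sets of `n` points of the plane. -/
noncomputable def M (r n : ℕ) : ℕ :=
  sSup {g : ℕ | ∃ A : Finset (EuclideanSpace ℝ (Fin 2)), A.card = n ∧
    g = freq A r - freq A (r + 1)}

theorem two_mul_pairCount (A : Finset (EuclideanSpace ℝ (Fin 2))) (d : ℝ) (hd : 0 < d) :
    2 * pairCount A d = H118R2.mult A d := by
  classical
  set F := (A ×ˢ A).filter (fun p => dist p.1 p.2 = d) with hF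
  have hmult : H118R2.mult A d = F.card := by
    unfold H118R2.mult; congr!
  have hset : {z : Sym2 (EuclideanSpace ℝ (Fin 2)) |
      ∃ x ∈ A, ∃ y ∈ A, x ≠ y ∧ dist x y = d ∧ z = s(x, y)} =
      ((F.image (fun p => s(p.1, p.2)) : Finset _) : Set _) := by
    ext z
    simp only [Set.mem_ofPred_eq, coe_image, Set.mem_image, mem_coe, hF, mem_filter, mem_product,
      Prod.exists]
    constructor
    · rintro ⟨x, hx, y, hy, _, hxy, rfl⟩
      exact ⟨x, y, ⟨⟨hx, hy⟩, hxy⟩, rfl⟩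
    · rintro ⟨x, y, ⟨⟨hx, hy⟩, hxy⟩, rfl⟩
      refine ⟨x, hx, y, hy, ?_, hxy, rfl⟩
      rintro rfl
      rw [dist_self] at hxy
      exact hd.ne hxy
  have h1 : pairCount A d = (F.image (fun p => s(p.1, p.2))).card := by
    unfold pairCount
    rw [hset, Set.ncard_coe_finset]
  have h2 : F.card = ∑ z ∈ F.image (fun p => s(p.1, p.2)),
      (F.filter (fun p => s(p.1, p.2) = z)).card :=
    card_eq_sum_card_image _ _
  have h3 : ∀ z ∈ F.image (fun p => s(p.1, p.2)),
      (F.filter (fun p => s(p.1, p.2) = z)).card = 2 := by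
    intro z hz
    obtain ⟨⟨x, y⟩, hxy, rfl⟩ := mem_image.mp hz
    have hxy' := hxy
    rw [hF, mem_filter, mem_product] at hxy'
    obtain ⟨⟨hx, hy⟩, hdist⟩ := hxy'
    simp only at hx hy hdist
    have hne : x ≠ y := by
      rintro rfl
      rw [dist_self] at hdist
      exact hd.ne hdist
    have : F.filter (fun p => s(p.1, p.2) = s(x, y)) = {(x, y), (y, x)} := by
      ext ⟨a, b⟩
      simp only [mem_filter, mem_insert, mem_singleton, Sym2.eq_iff, Prod.mk.injEq]
      constructor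
      · rintro ⟨_, h⟩
        exact h
      · rintro (⟨rfl, rfl⟩ | ⟨rfl, rfl⟩)
        · exact ⟨hxy, Or.inl ⟨rfl, rfl⟩⟩
        · refine ⟨?_, Or.inr ⟨rfl, rfl⟩⟩
          rw [hF, mem_filter, mem_product]
          exact ⟨⟨hy, hx⟩, by rw [dist_comm]; exact hdist⟩
    rw [this, card_pair]
    intro h
    exact hne (Prod.mk.inj h).1
  rw [hmult, h2, sum_congr rfl h3, sum_const, smul_eq_mul, h1, mul_comm]

theorem pairCount_le (A : Finset (EuclideanSpace ℝ (Fin 2))) (d : ℝ) (hd : 0 < d) :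
    pairCount A d ≤ A.card * A.card := by
  have h1 := two_mul_pairCount A d hd
  have h2 := H118R2.mult_le_sq A d
  omega

theorem finite_dist (A : Finset (EuclideanSpace ℝ (Fin 2))) (m : ℕ) (hm : 1 ≤ m) :
    {d : ℝ | 0 < d ∧ m ≤ pairCount A d}.Finite := by
  classical
  refine ((A ×ˢ A).image (fun x => dist x.1 x.2)).finite_toSet.subset ?_
  rintro d ⟨hd, hmd⟩
  by_contra hcon
  have h0 : H118R2.mult A d = 0 := by
    apply H118R2.mult_eq_zero
    intro p hp q hq h
    apply hcon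
    rw [mem_coe]
    exact mem_image.mpr ⟨(p, q), mem_product.mpr ⟨hp, hq⟩, h⟩
  have := two_mul_pairCount A d hd
  omega

theorem freq_bdd (A : Finset (EuclideanSpace ℝ (Fin 2))) (r : ℕ) (hr : 1 ≤ r) :
    BddAbove {m : ℕ | 1 ≤ m ∧ r ≤ Set.ncard {d : ℝ | 0 < d ∧ m ≤ pairCount A d}} := by
  refine ⟨A.card * A.card, ?_⟩
  rintro m ⟨_, h2⟩
  have h3 : {d : ℝ | 0 < d ∧ m ≤ pairCount A d}.Nonempty := by
    rw [Set.nonempty_iff_ne_empty]
    intro h
    rw [h, Set.ncard_empty] at h2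
    omega
  obtain ⟨d, hd, hmd⟩ := h3
  exact hmd.trans (pairCount_le A d hd)

theorem freq_le (A : Finset (EuclideanSpace ℝ (Fin 2))) (r : ℕ) (hr : 1 ≤ r) :
    freq A r ≤ A.card * A.card := by
  unfold freq
  rcases Set.eq_empty_or_nonempty
    {m : ℕ | 1 ≤ m ∧ r ≤ Set.ncard {d : ℝ | 0 < d ∧ m ≤ pairCount A d}} with h | h
  · rw [h]; simp
  · refine csSup_le h ?_
    rintro m ⟨_, h2⟩
    have h3 : {d : ℝ | 0 < d ∧ m ≤ pairCount A d}.Nonempty := by
      rw [Set.nonempty_iff_ne_empty]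
      intro h
      rw [h, Set.ncard_empty] at h2
      omega
    obtain ⟨d, hd, hmd⟩ := h3
    exact hmd.trans (pairCount_le A d hd)

/-- A set of `r` distances each more frequent by `g > 0` than all others bounds
`f(d_r) - f(d_{r+1})` from below. -/
theorem freq_gap (A : Finset (EuclideanSpace ℝ (Fin 2))) (r : ℕ) (hr : 1 ≤ r) (T : Finset ℝ)
    (hT : T.card = r) (hpos : ∀ t ∈ T, 0 < t) (g : ℝ) (hg : 0 < g)
    (h : ∀ t ∈ T, ∀ s, 0 < s → s ∉ T → (pairCount A s : ℝ) + g ≤ pairCount A t) :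
    (freq A (r + 1) : ℝ) + g ≤ freq A r := by
  classical
  have hTne : T.Nonempty := card_pos.mp (by omega)
  obtain ⟨t0, ht0, hmin⟩ := exists_min_image T (fun t => pairCount A t) hTne
  -- a positive real outside `T`
  obtain ⟨s0, hs0, hs0T⟩ : ∃ s : ℝ, 0 < s ∧ s ∉ T := by
    refine ⟨1 + ∑ t ∈ T, t, ?_, ?_⟩
    · have : 0 ≤ ∑ t ∈ T, t := sum_nonneg fun t ht => (hpos t ht).le
      linarith
    · intro hmem
      have := single_le_sum (f := fun t : ℝ => t) (fun t ht => (hpos t ht).le) hmem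
      linarith
  have hm1 : 1 ≤ pairCount A t0 := by
    have h1 := h t0 ht0 s0 hs0 hs0T
    have h2 : (0 : ℝ) ≤ pairCount A s0 := Nat.cast_nonneg _
    have h3 : (0 : ℝ) < pairCount A t0 := by linarith
    exact_mod_cast h3
  have hlow : pairCount A t0 ≤ freq A r := by
    unfold freq
    refine le_csSup (freq_bdd A r hr) ⟨hm1, ?_⟩
    rw [← hT, ← Set.ncard_coe_finset]
    refine Set.ncard_le_ncard ?_ (finite_dist A _ hm1)
    intro t ht
    exact ⟨hpos t ht, hmin t ht⟩
  have hup : (freq A (r + 1) : ℝ) + g ≤ pairCount A t0 := by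
    unfold freq
    rcases Set.eq_empty_or_nonempty
      {m : ℕ | 1 ≤ m ∧ r + 1 ≤ Set.ncard {d : ℝ | 0 < d ∧ m ≤ pairCount A d}} with he | he
    · rw [he]
      have h1 := h t0 ht0 s0 hs0 hs0T
      have h2 : (0 : ℝ) ≤ pairCount A s0 := Nat.cast_nonneg _
      have h3 : ((sSup (∅ : Set ℕ) : ℕ) : ℝ) = 0 := by simp
      rw [h3]
      linarith
    · have hmem := Nat.sSup_mem he (freq_bdd A (r + 1) (by omega))
      obtain ⟨_, h2⟩ := hmem
      set m := sSup {m : ℕ | 1 ≤ m ∧ r + 1 ≤ Set.ncard {d : ℝ | 0 < d ∧ m ≤ pairCount A d}}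
      obtain ⟨s, hs, hsT⟩ : ∃ s ∈ {d : ℝ | 0 < d ∧ m ≤ pairCount A d}, s ∉ T := by
        by_contra hcon
        push Not at hcon
        have h3 : Set.ncard {d : ℝ | 0 < d ∧ m ≤ pairCount A d} ≤ T.card := by
          rw [← Set.ncard_coe_finset]
          exact Set.ncard_le_ncard (fun s hs => hcon s hs) T.finite_toSet
        omega
      have h4 := h t0 ht0 s hs.1 hsT
      have h5 : (m : ℝ) ≤ pairCount A s := by exact_mod_cast hs.2
      linarith
  have h6 : (pairCount A t0 : ℝ) ≤ freq A r := by exact_mod_cast hlow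
  linarith

/-- **Theorem.** There is an absolute constant `c > 0` with `M_r(n) ≥ (n / r) ^ (1 + c)` for all
`r ≥ 1` and all `n ≥ n₀ r`. -/
theorem result : ∃ c : ℝ, 0 < c ∧ ∃ n₀ : ℕ, ∀ n r : ℕ, 1 ≤ r → n₀ * r ≤ n →
    ((n : ℝ) / r) ^ (1 + c) ≤ M r n := by
  classical
  obtain ⟨c, hc, n₀, hn₀, h⟩ := H118R2.gap_of_towerS
    (TeamU.towerS_of TeamU.obstructionBound TeamU.existsL0 TeamU.rankZ1)
  refine ⟨c, hc, n₀, fun n r hr hn => ?_⟩
  obtain ⟨Q, hQ, T, hT, hpos, hgap⟩ := h n r hr hn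
  set A : Finset (EuclideanSpace ℝ (Fin 2)) := Q.image TeamU.toPlane with hA
  have hAcard : A.card = n := by
    rw [hA, card_image_of_injective _ TeamU.toPlane.injective, hQ]
  have hmult : ∀ t : ℝ, H118R2.mult A t = H118R2.mult Q t := by
    intro t
    rw [hA, H118R2.mult_image_isometry (fun x => TeamU.toPlane x) 1 one_ne_zero
      (fun x y => by rw [one_mul]; exact TeamU.toPlane.dist_eq x y) Q t, div_one]
  have hn0 : 0 < n := by
    have : 1 ≤ n₀ * r := Nat.mul_pos hn₀ hr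
    omega
  have hg : 0 < ((n : ℝ) / r) ^ (1 + c) := by
    have h1 : (0 : ℝ) < n := by exact_mod_cast hn0
    have h2 : (0 : ℝ) < r := by exact_mod_cast hr
    positivity
  have key := freq_gap A r hr T hT hpos (((n : ℝ) / r) ^ (1 + c)) hg (by
    intro t ht s hs0 hsT
    have h1 := hgap t ht s hs0 hsT
    rw [← hmult, ← hmult, ← two_mul_pairCount A t (hpos t ht), ← two_mul_pairCount A s hs0] at h1
    push_cast at h1
    linarith)
  have hle : freq A r - freq A (r + 1) ≤ M r n := by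
    unfold M
    refine le_csSup ⟨n * n, ?_⟩ ⟨A, hAcard, rfl⟩
    rintro g ⟨B, hB, rfl⟩
    have := freq_le B r hr
    rw [hB] at this
    omega
  have h1 : freq A (r + 1) ≤ freq A r := by
    have : (freq A (r + 1) : ℝ) ≤ freq A r := by linarith
    exact_mod_cast this
  have h2 : ((freq A r - freq A (r + 1) : ℕ) : ℝ) = (freq A r : ℝ) - freq A (r + 1) := by
    push_cast [h1]; ring
  have h3 : ((freq A r - freq A (r + 1) : ℕ) : ℝ) ≤ M r n := by exact_mod_cast hle
  rw [h2] at h3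
  linarith

end Pool.Agent.Results.MP_1cd194_co.PolynomialGap
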